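import Pool.Agent.H937.QS.Stm3
import Pool.Graph.R_seed8.W469.WR.Mb

/-!
# Project QS: a projective model from a family with a covering set of smooth charts
-/

set_option autoImplicit false

open scoped Matrix TensorProduct
open Pool.Agent.H937.QS
universe u
namespace Pool.Agent.H980.QS.MOD

open Pool.Agent.W559.Wr Pool.Agent.W469.WR.Mb

theorem t_MOD : S_MOD.{u} := by
  intro k K _ _ _ L A₀ hA₀L T _ z J hzL hz0 hcv hsm hfr
  classical
  obtain ⟨t₀, ht₀, -⟩ := hcv ⊤ (fun _ _ => trivial)
  have hne : Nonempty {i // z i ≠ 0} := ⟨⟨t₀, hz0 t₀ ht₀⟩⟩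
  have : Fintype {i // z i ≠ 0} := Fintype.ofFinite _
  obtain ⟨l, hl⟩ : ∃ l, Fintype.card {i // z i ≠ 0} = l + 1 :=
    ⟨Fintype.card {i // z i ≠ 0} - 1, by have := Fintype.card_pos_iff.mpr hne; omega⟩
  let e : Fin (l + 1) ≃ {i // z i ≠ 0} := (Fintype.equivFinOfCardEq hl).symm
  let w : Fin (l + 1) → L := fun n => ⟨z (e n), hzL _⟩
  have hw : ∀ n, w n ≠ 0 := fun n h0 => (e n).2 (congrArg Subtype.val h0)
  have hwval : ∀ n, ((w n : L) : K) = z (e n) := fun n => rfl
  set A : Subalgebra k L := A₀.comap L.val with hA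
  have hAmap : A.map L.val = A₀ := by
    apply le_antisymm
    · rintro _ ⟨x, hx, rfl⟩
      exact hx
    · intro x hx
      exact ⟨⟨x, hA₀L x hx⟩, hx, rfl⟩
  have hmap : ∀ m, (ch A w m).map L.val =
      A₀ ⊔ Algebra.adjoin k (Set.range fun i => z i / z (e m)) := by
    intro m
    unfold ch
    rw [Algebra.map_sup, hAmap, AlgHom.map_adjoin]
    congr 1
    apply le_antisymm
    · refine Algebra.adjoin_mono ?_
      rintro _ ⟨_, ⟨n, rfl⟩, rfl⟩
      exact ⟨e n, rfl⟩
    · refine Algebra.adjoin_le ?_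
      rintro _ ⟨i, rfl⟩
      by_cases hi : z i = 0
      · simp only [hi, zero_div]
        exact Subalgebra.zero_mem _
      · refine Algebra.subset_adjoin ⟨w (e.symm ⟨i, hi⟩) / w m, ⟨_, rfl⟩, ?_⟩
        change ((w (e.symm ⟨i, hi⟩) : L) : K) / ((w m : L) : K) = _
        rw [hwval, hwval, Equiv.apply_symm_apply]
  refine ⟨l, w, hw, ?_, ?_⟩
  · intro i
    refine smooth_all L.val A w hw {m | (e m : T) ∈ J} ?_ ?_ i
    · intro V hV
      obtain ⟨t, ht, hjV⟩ := hcv V (fun x hx => hV ⟨x, hA₀L x hx⟩ hx)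
      refine ⟨e.symm ⟨t, hz0 t ht⟩, ?_, fun n => ?_⟩
      · change (e (e.symm ⟨t, hz0 t ht⟩) : T) ∈ J
        rw [Equiv.apply_symm_apply]
        exact ht
      · change ((w n : L) : K) / ((w (e.symm ⟨t, hz0 t ht⟩) : L) : K) ∈ V
        rw [hwval, hwval, Equiv.apply_symm_apply]
        exact hjV _
    · intro m hm
      have h1 := hsm (e m : T) hm
      have h2 := hmap m
      have e2 : ch A w m ≃ₐ[k]
          (A₀ ⊔ Algebra.adjoin k (Set.range fun i => z i / z (e m)) : Subalgebra k K) :=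
        (Subalgebra.equivMapOfInjective (ch A w m) L.val L.val.injective).trans
          (Subalgebra.equivOfEq _ _ h2)
      exact Algebra.Smooth.of_equiv e2.symm
  · rw [eq_top_iff]
    intro x _
    obtain ⟨y, hy, y', hy', hy0, hxy⟩ := hfr t₀ ht₀ (x : K) x.2
    set m := e.symm ⟨t₀, hz0 t₀ ht₀⟩ with hm
    have hem : (e m : T) = t₀ := by
      rw [hm, Equiv.apply_symm_apply]
    have hle : ch A w m ≤
        (IntermediateField.adjoin k ((A : Set L) ∪ Set.range fun j => w j / w 0)).toSubalgebra := by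
      refine sup_le ?_ (Algebra.adjoin_le ?_)
      · intro v hv
        exact IntermediateField.subset_adjoin _ _ (Or.inl hv)
      · rintro _ ⟨n, rfl⟩
        have h1 : w n / w m = (w n / w 0) / (w m / w 0) := by
          have := hw 0
          have := hw m
          field_simp
        change w n / w m ∈ IntermediateField.adjoin k ((A : Set L) ∪ Set.range fun j => w j / w 0)
        rw [h1]
        exact div_mem (IntermediateField.subset_adjoin _ _ (Or.inr ⟨n, rfl⟩))
          (IntermediateField.subset_adjoin _ _ (Or.inr ⟨m, rfl⟩))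
    have hlift : ∀ y ∈ (A₀ ⊔ Algebra.adjoin k (Set.range fun t' => z t' / z t₀) : Subalgebra k K),
        ∃ v ∈ IntermediateField.adjoin k ((A : Set L) ∪ Set.range fun j => w j / w 0),
        (v : K) = y := by
      intro y hy
      have h2 := hmap m
      rw [hem] at h2
      rw [← h2] at hy
      obtain ⟨v, hv, hvy⟩ := hy
      exact ⟨v, hle hv, hvy⟩
    obtain ⟨v, hv, hvy⟩ := hlift y hy
    obtain ⟨v', hv', hvy'⟩ := hlift y' hy'
    have h3 : x = v / v' := by
      apply Subtype.ext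
      rw [hxy, ← hvy, ← hvy']
      rfl
    rw [h3]
    exact div_mem hv hv'

end Pool.Agent.H980.QS.MOD
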